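import Pool.Agent.H23.BG.TargetsL
import Pool.Agent.H60.GLB.CG
import Pool.Agent.H64.GLB.AG

/-!
# Board `brg_modules`, L_MU: multiplicativity of the coefficients
-/

set_option autoImplicit false

open NumberField NumberField.InfinitePlace NumberField.Units
  NumberField.Units.dirichletUnitTheorem MeasureTheory Set Filter Complex
open scoped nonZeroDivisors ENNReal

namespace Pool.Agent.H96.BG

open Pool.Agent.H25.HK Pool.Agent.H23.LB Pool.Agent.H23.LC Pool.Agent.H29.DW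
open Pool.Agent.H28.RC (Rep ft idl)
open Pool.Agent.H6.GLA (cf_norm_ph)

section

variable {K : Type} [Field K] [NumberField K]

theorem smul_mem_fi (M : FI K) (b : 𝓞 K) {x : K} (hx : x ∈ M) : (b : K) * x ∈ M := by
  have h := Submodule.smul_mem (M : Submodule (𝓞 K) K) b hx
  rw [Algebra.smul_def] at h
  exact h

theorem mul_mem_fm {f : Ideal (𝓞 K)} (M : FI K) {c : 𝓞 K} (hc : c ∈ f) {x : K} (hx : x ∈ M) :
    (c : K) * x ∈ (f : FI K) * M :=
  FractionalIdeal.mul_mem_mul (FractionalIdeal.mem_coeIdeal_of_mem _ hc) hx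

theorem add_mem_fi (M : FI K) {x y : K} (hx : x ∈ M) (hy : y ∈ M) : x + y ∈ M :=
  Submodule.add_mem (M : Submodule (𝓞 K) K) hx hy

theorem sub_mem_fi (M : FI K) {x y : K} (hx : x ∈ M) (hy : y ∈ M) : x - y ∈ M :=
  Submodule.sub_mem (M : Submodule (𝓞 K) K) hx hy

theorem exists_inv {f : Ideal (𝓞 K)} {a : ℕ} (h : Ideal.span {(a : 𝓞 K)} ⊔ f = ⊤) :
    ∃ b : 𝓞 K, 1 - (a : 𝓞 K) * b ∈ f := by
  have h1 : (1 : 𝓞 K) ∈ Ideal.span {(a : 𝓞 K)} ⊔ f := by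
    rw [h]
    exact Submodule.mem_top
  obtain ⟨u, hu, c, hc, huc⟩ := Submodule.mem_sup.1 h1
  obtain ⟨b, hb⟩ := Ideal.mem_span_singleton'.1 hu
  refine ⟨b, ?_⟩
  have h2 : 1 - (a : 𝓞 K) * b = c := by
    rw [← huc, ← hb]
    ring
  rw [h2]
  exact hc

/-- the classes `a r` -/
theorem rep_mul {f : Ideal (𝓞 K)} {a : ℕ} (h : Ideal.span {(a : 𝓞 K)} ⊔ f = ⊤) (M : FI K)
    (X : Finset K) (hX : Rep K f M X) {x : K} (hx : x ∈ M) :
    ∃! r, r ∈ X ∧ x - (a : K) * r ∈ (f : FI K) * M := by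
  obtain ⟨b, hb⟩ := exists_inv h
  have hab : ((1 - (a : 𝓞 K) * b : 𝓞 K) : K) = 1 - (a : K) * (b : K) := by
    simp
  have haK : (((a : 𝓞 K)) : K) = (a : K) := by simp
  have hbx := smul_mem_fi M b hx
  obtain ⟨r, ⟨hr1, hr2⟩, hr3⟩ := hX.2 _ hbx
  refine ⟨r, ⟨hr1, ?_⟩, ?_⟩
  · have e : x - (a : K) * r = ((1 - (a : 𝓞 K) * b : 𝓞 K) : K) * x +
        (((a : 𝓞 K)) : K) * ((b : K) * x - r) := by
      rw [hab, haK]
      ring
    rw [e]
    exact add_mem_fi _ (mul_mem_fm M hb hx) (smul_mem_fi _ _ hr2)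
  · rintro r' ⟨hr1', hr2'⟩
    apply hr3
    refine ⟨hr1', ?_⟩
    have e : (b : K) * x - r' = (b : K) * (x - (a : K) * r') -
        ((1 - (a : 𝓞 K) * b : 𝓞 K) : K) * r' := by
      rw [hab]
      ring
    rw [e]
    exact sub_mem_fi _ (smul_mem_fi _ _ hr2') (mul_mem_fm M hb (hX.1 r' hr1'))

end

/-- (MU) -/
theorem pf_L_MU : Pool.Agent.H23.BG.L_MU := by
  intro K _ _ f hf hft χ a ha
  have ha0 : (a : 𝓞 K) ≠ 0 := by
    intro h0
    apply hft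
    rw [h0] at ha
    simpa using ha
  have haK : (((a : 𝓞 K)) : K) ≠ 0 := by
    simpa using ha0
  have hAG := Pool.Agent.H64.GLB.pf_AG
  refine ⟨(starRingEnd ℂ) (ag χ.k (((a : 𝓞 K)) : K)) *
    (starRingEnd ℂ) (ph χ.ν (((a : 𝓞 K)) : K)) * χ.ψ (Ideal.span {(a : 𝓞 K)}), ?_, ?_⟩
  · rw [norm_mul, norm_mul, RCLike.norm_conj, (hAG K χ.k).2.1 _ haK, RCLike.norm_conj,
      cf_norm_ph, χ.norm_one _ (by simpa [Ideal.span_singleton_eq_bot] using ha0) ha]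
    norm_num
  · intro M hM
    refine ⟨fun x hx => ?_, fun X hX x hx => rep_mul ha M X hX hx⟩
    have h := Pool.Agent.H60.GLB.cg_mul_a hAG Pool.Agent.H92.RC.pf_ID χ hf hM ha0 hx
    have e : (((a : 𝓞 K)) : K) = (a : K) := by simp
    rw [e] at h ⊢
    exact h

end Pool.Agent.H96.BG
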