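import Pool.Agent.H96.BG.L_MU
import Pool.Agent.H23.BG.TargetsP
import Pool.Agent.H29.DW.QWa

/-!
# Board `brg_modules`, P_SH: the shift at one position
-/

set_option autoImplicit false
set_option linter.unusedSectionVars false

open NumberField NumberField.InfinitePlace NumberField.Units
  NumberField.Units.dirichletUnitTheorem MeasureTheory Set Filter Complex
open scoped nonZeroDivisors ENNReal

namespace Pool.Agent.H96.BG

open Pool.Agent.H25.HK Pool.Agent.H23.LB Pool.Agent.H23.LC Pool.Agent.H29.DW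
open Pool.Agent.H23.BG
open Pool.Agent.H28.RC (Rep ft idl)

section

variable {K : Type} [Field K] [NumberField K]

theorem vol_Sq1 : volume Sq1 < ⊤ := by
  refine (measure_mono (?_ : Sq1 ⊆ Metric.closedBall (0 : ℂ) 1)).trans_lt
    measure_closedBall_lt_top
  intro s hs
  rw [Metric.mem_closedBall, dist_zero_right]
  have h := Complex.norm_le_abs_re_add_abs_im s
  have h1 := hs.1
  have h2 := hs.2
  linarith

theorem vol_SqK : volume (SqK K) < ⊤ := by
  unfold SqK
  rw [volume_pi_pi]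
  exact ENNReal.prod_lt_top fun v _ => vol_Sq1

/-- the near points -/
theorem fin_near (hTH : T_TH) {M : FI K} (hM : M ≠ 0)
    {H : InfinitePlace K → ℝ} {y : InfinitePlace K → ℝ}
    {ω : InfinitePlace K → ℂ} (hω : Pos ω) (hH : ∀ v, 1 ≤ H v) :
    {x : {x : K // x ∈ M} | ∀ v, H v * ‖wv v x.1 y ω - 1‖ ≤ 1 / 8}.Finite := by
  set R : ℝ := ∑ v : InfinitePlace K, 2 * Real.exp (-(y v / 2)) with hR
  refine (Pool.Agent.H21.GLB.fin_set hTH M hM R).subset ?_
  intro x hx v
  have h1 := hx v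
  have h2 : ‖wv v x.1 y ω - 1‖ ≤ 1 / 8 := by
    have h3 := hH v
    have h4 := norm_nonneg (wv v x.1 y ω - 1)
    nlinarith
  have h3 : ‖wv v x.1 y ω‖ ≤ 2 := by
    have h4 := norm_le_norm_add_norm_sub (1 : ℂ) (wv v x.1 y ω)
    rw [norm_one, norm_sub_rev] at h4
    linarith
  rw [norm_wv v x.1 y hω] at h3
  have h4 : v x.1 ≤ 2 * Real.exp (-(y v / 2)) := by
    rw [Real.exp_neg, ← div_eq_mul_inv, le_div_iff₀ (Real.exp_pos _)]
    exact h3
  refine h4.trans ?_
  rw [hR]
  exact Finset.single_le_sum (f := fun v : InfinitePlace K => 2 * Real.exp (-(y v / 2)))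
    (fun v _ => by positivity) (Finset.mem_univ v)

theorem wv_smul (v : InfinitePlace K) {a : ℕ} (ha : 0 < a) (b : K) (y y' : InfinitePlace K → ℝ)
    (ω : InfinitePlace K → ℂ) (hy : y' v = y v + 2 * Real.log a) :
    wv v ((a : K) * b) y ω = wv v b y' ω := by
  unfold wv
  have h1 : Real.exp (y' v / 2) = Real.exp (y v / 2) * a := by
    rw [hy, show (y v + 2 * Real.log a) / 2 = y v / 2 + Real.log a by ring, Real.exp_add,
      Real.exp_log (by exact_mod_cast ha)]
  rw [h1, map_mul, map_natCast]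
  push_cast
  ring

theorem small_wv (v : InfinitePlace K) {M : FI K} {H : InfinitePlace K → ℝ} {b : K}
    {y' : InfinitePlace K → ℝ} {ω : InfinitePlace K → ℂ} (hω : Pos ω) (hH : ∀ v, 1 ≤ H v)
    (hb : b ∈ Bx K M (fun v => y' v + hs H v)) : H v * ‖wv v b y' ω‖ ≤ 1 / 16 := by
  rw [norm_wv v b y' hω]
  have h1 := hb.2 v
  have h0 : 0 < 16 * H v := by
    have := hH v
    linarith
  have h2 : Real.exp ((y' v + hs H v) / 2) = Real.exp (y' v / 2) * (16 * H v) := by
    unfold hs
    rw [show (y' v + 2 * Real.log (16 * H v)) / 2 = y' v / 2 + Real.log (16 * H v) by ring,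
      Real.exp_add, Real.exp_log h0]
  have h3 : v b * (Real.exp (y' v / 2) * (16 * H v)) ≤ 1 := by
    rw [← h2]
    exact h1
  nlinarith

/-- translations of `M` -/
def trM (M : FI K) (t : K) (ht : t ∈ M) : {x : K // x ∈ M} ≃ {x : K // x ∈ M} where
  toFun x := ⟨x.1 + t, add_mem_fi M x.2 ht⟩
  invFun x := ⟨x.1 - t, sub_mem_fi M x.2 ht⟩
  left_inv x := by
    apply Subtype.ext
    simp
  right_inv x := by
    apply Subtype.ext
    simp

/-- the integrals are finite -/
theorem int_ab {α β : (InfinitePlace K → ℂ) → (InfinitePlace K → ℂ) → ℂ} {D : ℝ}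
    (hα : ∀ w, Measurable (fun s => α s w)) (hβ : ∀ b, Measurable (fun s => β s b))
    (h1 : ∀ s w, ‖α s w‖ ≤ 1) (h2 : ∀ s b, ‖β s b‖ ≤ D) (w b : InfinitePlace K → ℂ) :
    IntegrableOn (fun s => α s w * β s b) (SqK K) := by
  refine Measure.integrableOn_of_bounded (M := D) vol_SqK.ne
    ((hα w).mul (hβ b)).aestronglyMeasurable (Filter.Eventually.of_forall fun s => ?_)
  rw [norm_mul]
  have := h1 s w
  have := h2 s b
  have h3 := norm_nonneg (β s b)
  nlinarith [norm_nonneg (α s w)]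

end

open scoped Classical in
/-- (SH) -/
theorem pf_P_SH (hTH : T_TH) : Pool.Agent.H23.BG.P_SH := by
  intro K _ _ f hf hft χ cp H p B α β D hPw hBmp hαm hβm hα1 hα0 hβD hsep M X a y y' ω S hM hX ha
    hcop hω hy hS
  have hH := hPw.one
  have hp : ∀ v x, 1 / 16 < ‖x‖ → p v x = 0 := fun v x hx => (hBmp v).supp x hx
  obtain ⟨ω₀, hω₀, hmu⟩ := pf_L_MU K f hf hft χ a hcop
  obtain ⟨hmu1, hmu2⟩ := hmu M hM
  have hper := (Pool.Agent.H60.GLB.pf_CG Pool.Agent.H64.GLB.pf_AG K f χ M hf hM).2.2.2.1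
  have hSM : ∀ b ∈ S, b ∈ M := fun b hb => by
    have h : b ∈ (S : Set K) := hb
    rw [hS] at h
    exact h.1
  have haM : ∀ b ∈ S, (a : K) * b ∈ M := fun b hb => by
    have h := smul_mem_fi M (a : 𝓞 K) (hSM b hb)
    simpa using h
  have hS0 : (0 : K) ∈ S := by
    have h : (0 : K) ∈ (S : Set K) := by
      rw [hS]
      refine ⟨Submodule.zero_mem (M : Submodule (𝓞 K) K), fun v => ?_⟩
      rw [map_zero, zero_mul]
      exact zero_le_one
    exact h
  have hcard : (0 : ℝ) < S.card := by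
    exact_mod_cast Finset.card_pos.2 ⟨0, hS0⟩
  have hcardC : (S.card : ℂ) ≠ 0 := by
    exact_mod_cast hcard.ne'
  have hsm : ∀ b ∈ S, ∀ v, H v * ‖wv v b y' ω‖ ≤ 1 / 16 := fun b hb v => by
    have h : b ∈ (S : Set K) := hb
    rw [hS] at h
    exact small_wv v hω hH h
  -- the finite set of the near points
  obtain ⟨N, hN⟩ : ∃ N : Finset {x : K // x ∈ M}, ∀ x, x ∈ N ↔
      ∀ v, H v * ‖wv v x.1 y ω - 1‖ ≤ 1 / 8 :=
    ⟨(fin_near hTH hM hω hH).toFinset, fun x => by rw [Set.Finite.mem_toFinset]; rfl⟩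
  set W : K → InfinitePlace K → ℂ := fun x v => wv v x y ω with hW
  set W' : K → InfinitePlace K → ℂ := fun b v => wv v b y' ω with hW'
  -- the test function
  have hWg : ∀ x : K, ∀ b ∈ S, Wg cp H p (x + (a : K) * b) y ω =
      ∫ s in SqK K, α s (W x) * β s (W' b) := by
    intro x b hb
    rw [← hsep (W x) (W' b) (fun v => Rl_wv v x y hω) (fun v => Rl_wv v b y' hω) (hsm b hb)]
    unfold Wg
    refine Finset.prod_congr rfl fun v _ => ?_
    rw [wv_add, wv_smul v ha b y y' ω (hy v)]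
  have hWg0 : ∀ x : {x : K // x ∈ M}, x ∉ N → ∀ b ∈ S, Wg cp H p (x.1 + (a : K) * b) y ω = 0 := by
    intro x hx b hb
    rw [hWg x.1 b hb]
    have h1 : ∀ s, α s (W x.1) = 0 := fun s => by
      rw [hN x] at hx
      push Not at hx
      obtain ⟨v, hv⟩ := hx
      exact hα0 s (W x.1) v hv
    simp [h1]
  -- translation
  have htr : ∀ b ∈ S, ∑' x : {x : K // x ∈ M}, cg χ M x * Wg cp H p x y ω =
      ∑ x ∈ N, cg χ M (x.1 + (a : K) * b) * ∫ s in SqK K, α s (W x.1) * β s (W' b) := by
    intro b hb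
    rw [← (trM M ((a : K) * b) (haM b hb)).tsum_eq]
    have h1 : ∀ x : {x : K // x ∈ M}, ((trM M ((a : K) * b) (haM b hb) x : {x : K // x ∈ M}) : K)
        = x.1 + (a : K) * b := fun x => rfl
    simp only [h1]
    rw [tsum_eq_sum (s := N) (fun x hx => by rw [hWg0 x hx b hb, mul_zero])]
    exact Finset.sum_congr rfl fun x _ => by rw [hWg x.1 b hb]
  -- the average
  have hav : ∑' x : {x : K // x ∈ M}, cg χ M x * Wg cp H p x y ω =
      ∫ s in SqK K, ∑ x ∈ N, α s (W x.1) *
        ((∑ b ∈ S, β s (W' b) * cg χ M (x.1 + (a : K) * b)) / S.card) := by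
    have h1 : (S.card : ℂ) * ∑' x : {x : K // x ∈ M}, cg χ M x * Wg cp H p x y ω =
        ∑ b ∈ S, ∑ x ∈ N, cg χ M (x.1 + (a : K) * b) *
          ∫ s in SqK K, α s (W x.1) * β s (W' b) := by
      rw [← Finset.sum_congr rfl htr, Finset.sum_const, nsmul_eq_mul]
    have h2 : ∀ s, ∑ x ∈ N, α s (W x.1) *
        ((∑ b ∈ S, β s (W' b) * cg χ M (x.1 + (a : K) * b)) / S.card) =
        (S.card : ℂ)⁻¹ * ∑ b ∈ S, ∑ x ∈ N, cg χ M (x.1 + (a : K) * b) *
          (α s (W x.1) * β s (W' b)) := by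
      intro s
      rw [Finset.sum_comm, Finset.mul_sum]
      refine Finset.sum_congr rfl fun x _ => ?_
      rw [div_eq_mul_inv, Finset.sum_mul, Finset.mul_sum, Finset.mul_sum]
      exact Finset.sum_congr rfl fun b _ => by ring
    simp only [h2]
    rw [integral_const_mul, integral_finsetSum]
    · rw [eq_inv_mul_iff_mul_eq₀ hcardC, h1]
      refine Finset.sum_congr rfl fun b _ => ?_
      rw [integral_finsetSum]
      · exact Finset.sum_congr rfl fun x _ => by rw [integral_const_mul]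
      · exact fun x _ => (int_ab hαm hβm hα1 hβD (W x.1) (W' b)).const_mul _
    · exact fun b _ => integrable_finsetSum _ fun x _ =>
        (int_ab hαm hβm hα1 hβD (W x.1) (W' b)).const_mul _
  -- the counting function
  have hy' : (fun v => y' v - 2 * Real.log a) = y := by
    funext v
    rw [hy v]
    ring
  have hnu : ∀ r : K, nu K f M H a y' ω r =
      ∑ x ∈ N, if x.1 - (a : K) * r ∈ (f : FI K) * M then (1 : ℝ≥0∞) else 0 := by
    intro r
    unfold nu
    rw [hy', tsum_eq_sum (s := N)]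
    · refine Finset.sum_congr rfl fun x hx => ?_
      have hx' := (hN x).1 hx
      by_cases h : x.1 - (a : K) * r ∈ (f : FI K) * M
      · rw [if_pos ⟨h, hx'⟩, if_pos h]
      · rw [if_neg (fun h' => h h'.1), if_neg h]
    · intro x hx
      rw [if_neg]
      exact fun h => hx ((hN x).2 h.2)
  rw [hav]
  calc ENNReal.ofReal ‖∫ s in SqK K, ∑ x ∈ N, α s (W x.1) *
        ((∑ b ∈ S, β s (W' b) * cg χ M (x.1 + (a : K) * b)) / S.card)‖
      ≤ ∫⁻ s in SqK K, ENNReal.ofReal ‖∑ x ∈ N, α s (W x.1) *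
        ((∑ b ∈ S, β s (W' b) * cg χ M (x.1 + (a : K) * b)) / S.card)‖ := by
        have h := enorm_integral_le_lintegral_enorm (μ := volume.restrict (SqK K))
          (fun s => ∑ x ∈ N, α s (W x.1) *
          ((∑ b ∈ S, β s (W' b) * cg χ M (x.1 + (a : K) * b)) / S.card))
        simpa only [← ofReal_norm] using h
    _ ≤ _ := by
        refine lintegral_mono fun s => ?_
        -- one value of the parameter
        set g : K → ℝ := fun r => ‖∑ b ∈ S, β s (W' b) * cg χ M (r + b)‖ / (S.card : ℝ) with hg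
        have hg0 : ∀ r, 0 ≤ g r := fun r => div_nonneg (norm_nonneg _) hcard.le
        have hx1 : ∀ x ∈ N, ∃ r ∈ X, x.1 - (a : K) * r ∈ (f : FI K) * M ∧
            ‖α s (W x.1) * ((∑ b ∈ S, β s (W' b) * cg χ M (x.1 + (a : K) * b)) / S.card)‖ ≤
              g r := by
          intro x _
          obtain ⟨r, ⟨hr1, hr2⟩, -⟩ := hmu2 X hX x.1 x.2
          refine ⟨r, hr1, hr2, ?_⟩
          have h1 : ∑ b ∈ S, β s (W' b) * cg χ M (x.1 + (a : K) * b) =
              ω₀ * ∑ b ∈ S, β s (W' b) * cg χ M (r + b) := by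
            rw [Finset.mul_sum]
            refine Finset.sum_congr rfl fun b hb => ?_
            have hrb : r + b ∈ M := add_mem_fi M (hX.1 r hr1) (hSM b hb)
            have harb : (a : K) * (r + b) ∈ M := by
              have h := smul_mem_fi M (a : 𝓞 K) hrb
              simpa using h
            have h2 : x.1 + (a : K) * b = (a : K) * (r + b) + (x.1 - (a : K) * r) := by ring
            rw [h2, hper _ harb _ hr2, hmu1 _ hrb]
            ring
          rw [h1, norm_mul, norm_div, norm_mul, hω₀, one_mul, Complex.norm_natCast]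
          have h3 := hα1 s (W x.1)
          have h4 := hg0 r
          calc ‖α s (W x.1)‖ * (‖∑ b ∈ S, β s (W' b) * cg χ M (r + b)‖ / (S.card : ℝ))
              ≤ 1 * g r := mul_le_mul_of_nonneg_right h3 h4
            _ = g r := one_mul _
        calc ENNReal.ofReal ‖∑ x ∈ N, α s (W x.1) *
              ((∑ b ∈ S, β s (W' b) * cg χ M (x.1 + (a : K) * b)) / S.card)‖
            ≤ ENNReal.ofReal (∑ x ∈ N, ‖α s (W x.1) *
              ((∑ b ∈ S, β s (W' b) * cg χ M (x.1 + (a : K) * b)) / S.card)‖) :=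
              ENNReal.ofReal_le_ofReal (norm_sum_le _ _)
          _ = ∑ x ∈ N, ENNReal.ofReal ‖α s (W x.1) *
              ((∑ b ∈ S, β s (W' b) * cg χ M (x.1 + (a : K) * b)) / S.card)‖ :=
              ENNReal.ofReal_sum_of_nonneg fun x _ => norm_nonneg _
          _ ≤ ∑ x ∈ N, ∑ r ∈ X, (if x.1 - (a : K) * r ∈ (f : FI K) * M then (1 : ℝ≥0∞) else 0) *
              ENNReal.ofReal (g r) := by
              refine Finset.sum_le_sum fun x hx => ?_
              obtain ⟨r, hr1, hr2, hr3⟩ := hx1 x hx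
              refine le_trans ?_ (Finset.single_le_sum (f := fun r =>
                (if x.1 - (a : K) * r ∈ (f : FI K) * M then (1 : ℝ≥0∞) else 0) *
                ENNReal.ofReal (g r)) (fun _ _ => zero_le) hr1)
              rw [if_pos hr2, one_mul]
              exact ENNReal.ofReal_le_ofReal hr3
          _ = ∑ r ∈ X, nu K f M H a y' ω r * ENNReal.ofReal (g r) := by
              rw [Finset.sum_comm]
              refine Finset.sum_congr rfl fun r _ => ?_
              rw [hnu r, Finset.sum_mul]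

end Pool.Agent.H96.BG
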